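import Pool.Agent.Run7.h850.SetProg

/-!
# Compiling the `s`-`t` paths into a decomposable circuit takes `2 ^ n / n` nodes

A method used in practice for counting `s`-`t` paths represents the set of all `s`-`t` paths, as a
Boolean function of the edges, by a free binary decision diagram, a zero-suppressed diagram or,
more generally, a decomposable circuit, and reads off `P(G; s, t)` from it. The dynamic programme
over vertex subsets yields a free binary decision diagram with `O*(2 ^ n)` nodes. We show that no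
decomposable circuit, deterministic or not, does better, apart from a factor polynomial in `n`.
-/

set_option autoImplicit false

namespace Pool.Agent.Results.MP_e05f17_lc.DecomposableCircuits

open Finset Run7.h850

/-- `f`, a Boolean function of the graphs on `n` vertices, depends only on the edges in `X`, a set
of at most `(n - 1) / 2` pairs. For `n ≥ 3` this includes all literals: `e` is an edge of `G`, or
`e` is not an edge of `G`. -/
def Small (n : ℕ) (f : SimpleGraph (Fin n) → Prop) (X : Set (Sym2 (Fin n))) : Prop :=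
  2 * X.ncard ≤ n - 1 ∧
    ∀ G H : SimpleGraph (Fin n), (∀ e ∈ X, e ∈ G.edgeSet ↔ e ∈ H.edgeSet) → (f G ↔ f H)

/-- `Circuit n l k`: the functions in the list `l`, each with the set of pairs it mentions, are
computed by a decomposable circuit with `k` conjunctions. Each gate is a function of at most
`(n - 1) / 2` edges, the disjunction of two earlier gates, or the conjunction of two earlier gates
that mention disjoint sets of pairs. -/
inductive Circuit (n : ℕ) : List ((SimpleGraph (Fin n) → Prop) × Set (Sym2 (Fin n))) → ℕ → Prop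
  | nil : Circuit n [] 0
  | inp {l : List ((SimpleGraph (Fin n) → Prop) × Set (Sym2 (Fin n)))} {k : ℕ}
      {f : SimpleGraph (Fin n) → Prop} {X : Set (Sym2 (Fin n))} :
      Circuit n l k → Small n f X → Circuit n ((f, X) :: l) k
  | disj {l : List ((SimpleGraph (Fin n) → Prop) × Set (Sym2 (Fin n)))} {k : ℕ}
      {f g : SimpleGraph (Fin n) → Prop} {X Y : Set (Sym2 (Fin n))} :
      Circuit n l k → (f, X) ∈ l → (g, Y) ∈ l →
      Circuit n ((fun G => f G ∨ g G, X ∪ Y) :: l) k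
  | conj {l : List ((SimpleGraph (Fin n) → Prop) × Set (Sym2 (Fin n)))} {k : ℕ}
      {f g : SimpleGraph (Fin n) → Prop} {X Y : Set (Sym2 (Fin n))} :
      Circuit n l k → (f, X) ∈ l → (g, Y) ∈ l → Disjoint X Y →
      Circuit n ((fun G => f G ∧ g G, X ∪ Y) :: l) (k + 1)

variable {n : ℕ}

/-- The edges of `S` are exactly the edges of an `s`-`t` path. -/
def IsPathGraph (s t : Fin n) (S : SimpleGraph (Fin n)) : Prop :=
  ∃ p : S.Walk s t, p.IsPath ∧ ∀ e ∈ S.edgeSet, e ∈ p.edges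

/-- The edges of `S` are exactly the edges of a Hamiltonian `s`-`t` path. -/
def IsHamPathGraph (s t : Fin n) (S : SimpleGraph (Fin n)) : Prop :=
  ∃ p : S.Walk s t, p.IsHamiltonian ∧ ∀ e ∈ S.edgeSet, e ∈ p.edges

theorem eg_eq_self {s t : Fin n} {S : SimpleGraph (Fin n)} (p : S.Walk s t)
    (h : ∀ e ∈ S.edgeSet, e ∈ p.edges) : eg p = S := by
  ext u v
  simp only [eg, SimpleGraph.fromEdgeSet_adj, Set.mem_ofPred_eq]
  constructor
  · rintro ⟨h1, _⟩
    exact p.adj_of_mem_edges h1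
  · intro h1
    exact ⟨h _ h1, h1.ne⟩

/-- Two nested path graphs with the same ends are equal. -/
theorem nested {s t : Fin n} {S T : SimpleGraph (Fin n)} (hS : IsPth univ s t S)
    (hT : IsPth univ s t T) (h : S ≤ T) : T ≤ S := by
  classical
  have hsub : ∀ u, nb S u ⊆ nb T u := fun u v hv => mem_nb.2 (h (mem_nb.1 hv))
  have heq : ∀ u, (∃ v, S.Adj u v) → nb S u = nb T u := by
    rintro u ⟨v, hv⟩
    apply eq_of_subset_of_card_le (hsub u)
    by_cases h1 : u = s
    · rw [h1, hS.ds, hT.ds]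
    · by_cases h2 : u = t
      · rw [h2, hS.dt, hT.dt]
      · rcases hS.di u h1 h2 with h3 | h3
        · rw [card_eq_zero] at h3
          have := mem_nb.2 hv
          rw [h3] at this
          exact absurd this (notMem_empty _)
        · rw [h3]
          exact hT.le_two u
  have hs : ∃ v, S.Adj s v := by
    have h1 := hS.ds
    obtain ⟨v, hv⟩ := card_pos.1 (by omega : 0 < (nb S s).card)
    exact ⟨v, mem_nb.1 hv⟩
  have hc := hT.conn {u | ¬ ∃ v, S.Adj u v} (by
    intro u hu v huv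
    rintro ⟨w, hw⟩
    apply hu
    have h1 := heq v ⟨w, hw⟩
    have h2 := mem_nb.2 huv.symm
    rw [← h1, mem_nb] at h2
    exact ⟨v, h2.symm⟩) (fun h1 => h1 hs)
  intro u v huv
  by_cases h1 : ∃ w, S.Adj u w
  · have h2 := mem_nb.2 huv
    rw [← heq u h1, mem_nb] at h2
    exact h2
  · exact absurd huv (hc u h1 v)

/-- the partial assignments that make the gate `(f, X)` true -/
def Good (f : SimpleGraph (Fin n) → Prop) (X : Set (Sym2 (Fin n)))
    (Z : Set (SimpleGraph (Fin n) × Set (Sym2 (Fin n)))) : Prop :=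
  (∀ z ∈ Z, z.1.edgeSet ⊆ X ∧ z.2 ⊆ X ∧ Disjoint z.1.edgeSet z.2) ∧
    ∀ G, f G ↔ ∃ z ∈ Z, z.1 ≤ G ∧ Disjoint z.2 G.edgeSet

theorem edgeSet_fromEdgeSet_inter (G : SimpleGraph (Fin n)) (X : Set (Sym2 (Fin n))) :
    (SimpleGraph.fromEdgeSet (G.edgeSet ∩ X)).edgeSet = G.edgeSet ∩ X := by
  rw [SimpleGraph.edgeSet_fromEdgeSet]
  ext e
  constructor
  · exact fun h => h.1
  · exact fun h => ⟨h, G.not_isDiag_of_mem_edgeSet h.1⟩

theorem good_inp {f : SimpleGraph (Fin n) → Prop} {X : Set (Sym2 (Fin n))} (h : Small n f X) :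
    Good f X {z | z.1.edgeSet ⊆ X ∧ f z.1 ∧ z.2 = X \ z.1.edgeSet} := by
  refine ⟨?_, ?_⟩
  · rintro ⟨S, N⟩ ⟨h1, h2, h3⟩
    simp only at h1 h2 h3 ⊢
    subst h3
    exact ⟨h1, Set.sdiff_subset, Set.disjoint_sdiff_right⟩
  · intro G
    constructor
    · intro hG
      refine ⟨(SimpleGraph.fromEdgeSet (G.edgeSet ∩ X),
        X \ (SimpleGraph.fromEdgeSet (G.edgeSet ∩ X)).edgeSet), ⟨?_, ?_, rfl⟩, ?_, ?_⟩
      · simp only [edgeSet_fromEdgeSet_inter]
        exact Set.inter_subset_right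
      · refine (h.2 _ _ ?_).2 hG
        intro e he
        rw [edgeSet_fromEdgeSet_inter]
        exact ⟨fun h1 => h1.1, fun h1 => ⟨h1, he⟩⟩
      · simp only
        rw [← SimpleGraph.edgeSet_subset_edgeSet, edgeSet_fromEdgeSet_inter]
        exact Set.inter_subset_left
      · simp only [edgeSet_fromEdgeSet_inter]
        rw [Set.disjoint_left]
        rintro e ⟨h1, h2⟩ h3
        exact h2 ⟨h3, h1⟩
    · rintro ⟨⟨S, N⟩, ⟨h1, h2, h3⟩, h4, h5⟩
      simp only at h1 h2 h3 h4 h5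
      subst h3
      refine (h.2 _ _ ?_).1 h2
      intro e he
      constructor
      · intro h6
        exact SimpleGraph.edgeSet_subset_edgeSet.2 h4 h6
      · intro h6
        by_contra h7
        exact Set.disjoint_left.1 h5 ⟨he, h7⟩ h6

theorem good_disj {f g : SimpleGraph (Fin n) → Prop} {X Y : Set (Sym2 (Fin n))}
    {Z W : Set (SimpleGraph (Fin n) × Set (Sym2 (Fin n)))} (h : Good f X Z) (h' : Good g Y W) :
    Good (fun G => f G ∨ g G) (X ∪ Y) (Z ∪ W) := by
  refine ⟨?_, ?_⟩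
  · rintro z (hz | hz)
    · obtain ⟨h1, h2, h3⟩ := h.1 z hz
      exact ⟨h1.trans Set.subset_union_left, h2.trans Set.subset_union_left, h3⟩
    · obtain ⟨h1, h2, h3⟩ := h'.1 z hz
      exact ⟨h1.trans Set.subset_union_right, h2.trans Set.subset_union_right, h3⟩
  · intro G
    simp only
    rw [h.2 G, h'.2 G]
    constructor
    · rintro (⟨z, hz, h1⟩ | ⟨z, hz, h1⟩)
      · exact ⟨z, Or.inl hz, h1⟩
      · exact ⟨z, Or.inr hz, h1⟩
    · rintro ⟨z, hz | hz, h1⟩
      · exact Or.inl ⟨z, hz, h1⟩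
      · exact Or.inr ⟨z, hz, h1⟩

theorem good_conj {f g : SimpleGraph (Fin n) → Prop} {X Y : Set (Sym2 (Fin n))}
    {Z W : Set (SimpleGraph (Fin n) × Set (Sym2 (Fin n)))} (h : Good f X Z) (h' : Good g Y W)
    (hXY : Disjoint X Y) :
    Good (fun G => f G ∧ g G) (X ∪ Y)
      {x | ∃ z ∈ Z, ∃ w ∈ W, x = (z.1 ⊔ w.1, z.2 ∪ w.2)} := by
  refine ⟨?_, ?_⟩
  · rintro x ⟨z, hz, w, hw, rfl⟩
    obtain ⟨h1, h2, h3⟩ := h.1 z hz
    obtain ⟨h4, h5, h6⟩ := h'.1 w hw
    refine ⟨?_, Set.union_subset_union h2 h5, ?_⟩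
    · simp only [SimpleGraph.edgeSet_sup]
      exact Set.union_subset_union h1 h4
    · simp only [SimpleGraph.edgeSet_sup]
      rw [Set.disjoint_union_left, Set.disjoint_union_right, Set.disjoint_union_right]
      exact ⟨⟨h3, (hXY.mono h1 h5)⟩, ⟨(hXY.symm.mono h4 h2), h6⟩⟩
  · intro G
    simp only
    rw [h.2 G, h'.2 G]
    constructor
    · rintro ⟨⟨z, hz, h1, h2⟩, ⟨w, hw, h3, h4⟩⟩
      refine ⟨_, ⟨z, hz, w, hw, rfl⟩, sup_le h1 h3, ?_⟩
      simp only
      rw [Set.disjoint_union_left]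
      exact ⟨h2, h4⟩
    · rintro ⟨x, ⟨z, hz, w, hw, rfl⟩, h1, h2⟩
      simp only at h1 h2
      rw [Set.disjoint_union_left] at h2
      exact ⟨⟨z, hz, le_sup_left.trans h1, h2.1⟩, ⟨w, hw, le_sup_right.trans h1, h2.2⟩⟩

/-- The edge sets of the partial assignments form a set programme. -/
theorem toSP {l : List ((SimpleGraph (Fin n) → Prop) × Set (Sym2 (Fin n)))} {k : ℕ}
    (h : Circuit n l k) : ∃ L : List (Set (SimpleGraph (Fin n))), SP n L k ∧
      ∀ p ∈ l, ∃ Z, Good p.1 p.2 Z ∧ Prod.fst '' Z ∈ L := by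
  induction h with
  | nil => exact ⟨[], SP.nil, by simp⟩
  | @inp l k f X hC hf ih =>
    obtain ⟨L, hL, ih⟩ := ih
    refine ⟨Prod.fst '' {z : SimpleGraph (Fin n) × Set (Sym2 (Fin n)) |
      z.1.edgeSet ⊆ X ∧ f z.1 ∧ z.2 = X \ z.1.edgeSet} :: L, SP.free hL ?_, ?_⟩
    · rintro S ⟨⟨S', N⟩, ⟨h1, h2, h3⟩, rfl⟩
      rw [dn_eq_ncard]
      have h4 := Set.ncard_le_ncard h1 (Set.toFinite X)
      have h5 := hf.1
      simp only at h4 ⊢
      omega
    · intro p hp
      rw [List.mem_cons] at hp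
      rcases hp with rfl | hp
      · exact ⟨_, good_inp hf, List.mem_cons_self⟩
      · obtain ⟨Z, h1, h2⟩ := ih p hp
        exact ⟨Z, h1, List.mem_cons_of_mem _ h2⟩
  | @disj l k f g X Y hC hf hg ih =>
    obtain ⟨L, hL, ih⟩ := ih
    obtain ⟨Z, h1, h2⟩ := ih _ hf
    obtain ⟨W, h3, h4⟩ := ih _ hg
    refine ⟨_, SP.union hL h2 h4, ?_⟩
    intro p hp
    rw [List.mem_cons] at hp
    rcases hp with rfl | hp
    · refine ⟨_, good_disj h1 h3, ?_⟩
      rw [Set.image_union]
      exact List.mem_cons_self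
    · obtain ⟨Z, h1, h2⟩ := ih p hp
      exact ⟨Z, h1, List.mem_cons_of_mem _ h2⟩
  | @conj l k f g X Y hC hf hg hXY ih =>
    obtain ⟨L, hL, ih⟩ := ih
    obtain ⟨Z, h1, h2⟩ := ih _ hf
    obtain ⟨W, h3, h4⟩ := ih _ hg
    refine ⟨_, SP.join hL h2 h4, ?_⟩
    intro p hp
    rw [List.mem_cons] at hp
    rcases hp with rfl | hp
    · refine ⟨_, good_conj h1 h3 hXY, ?_⟩
      rw [List.mem_cons]
      left
      ext S
      constructor
      · rintro ⟨x, ⟨z, hz, w, hw, rfl⟩, rfl⟩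
        exact ⟨z.1, ⟨z, hz, rfl⟩, w.1, ⟨w, hw, rfl⟩, rfl⟩
      · rintro ⟨T, ⟨z, hz, rfl⟩, T', ⟨w, hw, rfl⟩, rfl⟩
        exact ⟨_, ⟨z, hz, w, hw, rfl⟩, rfl⟩
    · obtain ⟨Z, h1, h2⟩ := ih p hp
      exact ⟨Z, h1, List.mem_cons_of_mem _ h2⟩

/-- The bound in natural numbers. -/
theorem bound {N : ℕ} (hN : N = 8192) (hn : 2 ≤ n) {s t : Fin n} (hst : s ≠ t)
    {l : List ((SimpleGraph (Fin n) → Prop) × Set (Sym2 (Fin n)))} {k : ℕ} (h : Circuit n l k)
    {f : SimpleGraph (Fin n) → Prop} {X : Set (Sym2 (Fin n))} (hf : (f, X) ∈ l)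
    (h1 : ∀ S, f S → IsPathGraph s t S) (h2 : ∀ S, IsHamPathGraph s t S → f S) :
    2 ^ (n - 1) ≤ k * (2048 * N ^ N * (n - 1)) := by
  classical
  obtain ⟨L, hL, hl⟩ := toSP h
  obtain ⟨Z, hZ, hZL⟩ := hl _ hf
  simp only at hZ hZL
  have hfst : ∀ S ∈ Prod.fst '' Z, f S := by
    rintro S ⟨z, hz, rfl⟩
    exact (hZ.2 _).2 ⟨z, hz, le_rfl, (hZ.1 z hz).2.2.symm⟩
  refine sp_bound hN hn hst hL hZL ?_ ?_
  · intro S hS
    obtain ⟨p, hp, hpe⟩ := h1 S (hfst S hS)
    rw [← eg_eq_self p hpe]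
    exact isPth_eg p hp hst
  · rintro S hS ⟨p, hp, rfl⟩
    -- the Hamiltonian path is itself a model
    have h3 : ∀ e ∈ p.edges, e ∈ (eg p).edgeSet := by
      intro e he
      induction e with
      | _ a b =>
      simp only [eg, SimpleGraph.mem_edgeSet, SimpleGraph.fromEdgeSet_adj, Set.mem_ofPred_eq]
      exact ⟨he, (p.adj_of_mem_edges he).ne⟩
    have hall : ∀ v, v ∈ p.support := by
      intro v
      obtain ⟨u, hu⟩ := hS.all v (mem_univ v)
      simp only [eg, SimpleGraph.fromEdgeSet_adj, Set.mem_ofPred_eq] at hu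
      exact p.fst_mem_support_of_mem_edges hu.1
    have h4 : IsHamPathGraph s t (eg p) := by
      refine ⟨p.transfer _ h3, ?_, ?_⟩
      · have hpp : (p.transfer (eg p) h3).IsPath := hp.transfer h3
        apply hpp.isHamiltonian_of_mem
        intro v
        rw [SimpleGraph.Walk.support_transfer]
        exact hall v
      · intro e he
        rw [SimpleGraph.Walk.edges_transfer]
        induction e with
        | _ a b =>
        simp only [eg, SimpleGraph.mem_edgeSet, SimpleGraph.fromEdgeSet_adj,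
          Set.mem_ofPred_eq] at he
        exact he.1
    obtain ⟨z, hz, h5, h6⟩ := (hZ.2 _).1 (h2 _ h4)
    have h7 : f z.1 := hfst _ ⟨z, hz, rfl⟩
    obtain ⟨q, hq, hqe⟩ := h1 _ h7
    -- two nested path graphs are equal
    have h8 : z.1 = eg p := by
      apply le_antisymm h5
      refine nested ?_ (isPth_eg p hp hst) h5
      rw [← eg_eq_self q hqe]
      exact isPth_eg q hq hst
    rw [← h8]
    exact ⟨z, hz, rfl⟩

/-- There is `c > 0` such that for all `n ≥ 2` and all distinct `s`, `t`, each decomposable circuit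
whose models all are `s`-`t` path graphs and include all Hamiltonian ones (for example, whose models
are exactly the `s`-`t` paths of the complete graph on `n` labelled vertices) has at least
`c * 2 ^ n / n` conjunctions. -/
theorem result : ∃ c : ℝ, 0 < c ∧ ∀ n : ℕ, 2 ≤ n → ∀ s t : Fin n, s ≠ t →
    ∀ (l : List ((SimpleGraph (Fin n) → Prop) × Set (Sym2 (Fin n)))) (k : ℕ), Circuit n l k →
      ∀ (f : SimpleGraph (Fin n) → Prop) (X : Set (Sym2 (Fin n))), (f, X) ∈ l →
        (∀ S, f S → IsPathGraph s t S) → (∀ S, IsHamPathGraph s t S → f S) →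
        c * 2 ^ n / n ≤ k := by
  obtain ⟨N, hN⟩ : ∃ N : ℕ, N = 8192 := ⟨_, rfl⟩
  obtain ⟨C, hC⟩ : ∃ C : ℕ, C = 2048 * N ^ N := ⟨_, rfl⟩
  have hCpos : 0 < C := by rw [hC]; have : 0 < N := by omega
                           positivity
  refine ⟨1 / (2 * C), by positivity, ?_⟩
  intro n hn s t hst l k hP f X hF h1 h2
  have h1 := bound hN hn hst hP hF h1 h2
  rw [← hC] at h1
  have hn0 : (0 : ℝ) < n := by exact_mod_cast (by omega : 0 < n)
  have hC0 : (0 : ℝ) < C := by exact_mod_cast hCpos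
  have h2 : 2 ^ n ≤ 2 * C * n * k := by
    calc 2 ^ n = 2 * 2 ^ (n - 1) := by
          rw [← pow_succ']; congr 1; omega
      _ ≤ 2 * (k * (C * (n - 1))) := Nat.mul_le_mul_left _ h1
      _ ≤ 2 * (k * (C * n)) :=
          Nat.mul_le_mul_left _ (Nat.mul_le_mul_left _ (Nat.mul_le_mul_left _ (by omega)))
      _ = _ := by ring
  have h3 : (2 : ℝ) ^ n ≤ 2 * C * n * k := by exact_mod_cast h2
  rw [div_le_iff₀ hn0, div_mul_eq_mul_div, one_mul, div_le_iff₀ (by positivity)]
  linarith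

end Pool.Agent.Results.MP_e05f17_lc.DecomposableCircuits
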