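import Pool.Agent.Run7.h850.Rep

/-!
# Counting `s`-`t` paths without subtraction takes `2 ^ n / n` multiplications

`P(G; s, t)` is the number of simple `s`-`t` paths of the undirected simple graph `G` on `n`
labelled vertices. The classical dynamic programme over vertex subsets computes it by additions and
multiplications of nonnegative numbers from the adjacency bits of `G`, in `O*(2 ^ n)` steps. We show
that no computation of this kind is faster, apart from a factor polynomial in `n`: each such
programme has at least `c * 2 ^ n / n` multiplications.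
-/

set_option autoImplicit false

namespace Pool.Agent.Results.MP_e05f17_lc.SubtractionFree

open Finset Run7.h850

open Classical in
/-- The functions of the graph `G` on `n` vertices that a programme may use at no cost: the
combinations, with coefficients `w S ≥ 0`, of the indicators of `S` being a subgraph of `G`, for
graphs `S` with at most `(n - 1) / 2` edges. This includes all nonnegative constants and, for
`n ≥ 3`, all the adjacency bits of `G`. -/
def Free (n : ℕ) (f : SimpleGraph (Fin n) → NNReal) : Prop :=
  ∃ w : SimpleGraph (Fin n) → NNReal, (∀ S, w S ≠ 0 → 2 * S.edgeSet.ncard ≤ n - 1) ∧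
    ∀ G, f G = ∑ S, if S ≤ G then w S else 0

/-- `Prog n l k`: the functions in the list `l` are computed by a subtraction-free straight-line
programme with `k` multiplications. Each step is a free function, or the sum or the product of two
functions computed before. -/
inductive Prog (n : ℕ) : List (SimpleGraph (Fin n) → NNReal) → ℕ → Prop
  | nil : Prog n [] 0
  | free {l : List (SimpleGraph (Fin n) → NNReal)} {k : ℕ} {f : SimpleGraph (Fin n) → NNReal} :
      Prog n l k → Free n f → Prog n (f :: l) k
  | add {l : List (SimpleGraph (Fin n) → NNReal)} {k : ℕ} {f g : SimpleGraph (Fin n) → NNReal} :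
      Prog n l k → f ∈ l → g ∈ l → Prog n ((fun G => f G + g G) :: l) k
  | mul {l : List (SimpleGraph (Fin n) → NNReal)} {k : ℕ} {f g : SimpleGraph (Fin n) → NNReal} :
      Prog n l k → f ∈ l → g ∈ l → Prog n ((fun G => f G * g G) :: l) (k + 1)

variable {n : ℕ}

theorem dn_eq (S : SimpleGraph (Fin n)) : dn S = 2 * S.edgeSet.ncard := by
  classical
  rw [dn_eq_sum, Set.ncard_eq_toFinset_card']
  have h := S.sum_degrees_eq_twice_card_edges
  have h1 : ∀ v, (nb S v).card = S.degree v := by
    intro v
    rw [← SimpleGraph.card_neighborFinset_eq_degree]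
    congr 1
    ext w
    rw [mem_nb, SimpleGraph.mem_neighborFinset]
  simp only [h1]
  exact h

theorem Free.rep {f : SimpleGraph (Fin n) → NNReal} (h : Free n f) :
    (∃ w, Rep w f) ∧ ∀ S ∈ Sup f, dn S ≤ n - 1 := by
  obtain ⟨w, h1, h2⟩ := h
  have h3 : Rep w f := h2
  refine ⟨⟨w, h3⟩, ?_⟩
  intro S hS
  rw [h3.mem] at hS
  rw [dn_eq]
  exact h1 S hS

/-- `π` is obtained from the product gate with factors `p.1` and `p.2`. -/
def Covered (Good : SimpleGraph (Fin n) → Prop)
    (p : (SimpleGraph (Fin n) → NNReal) × (SimpleGraph (Fin n) → NNReal))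
    (π : SimpleGraph (Fin n)) : Prop :=
  ∃ c : Fin 3 → SimpleGraph (Fin n), c 0 ∈ Sup p.1 ∧ c 1 ∈ Sup p.2 ∧
    (∀ S₁ ∈ Sup p.1, ∀ S₂ ∈ Sup p.2, Good (S₁ ⊔ S₂ ⊔ c 2)) ∧ π = ⨆ i, c i ∧ Split c (n - 1) π

theorem iSup3 (c : Fin 3 → SimpleGraph (Fin n)) : ⨆ i, c i = c 0 ⊔ c 1 ⊔ c 2 := by
  ext u v
  simp only [SimpleGraph.iSup_adj, SimpleGraph.sup_adj]
  constructor
  · rintro ⟨i, hi⟩
    fin_cases i
    · exact Or.inl (Or.inl hi)
    · exact Or.inl (Or.inr hi)
    · exact Or.inr hi
  · rintro ((h | h) | h)
    · exact ⟨0, h⟩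
    · exact ⟨1, h⟩
    · exact ⟨2, h⟩

/-- Each graph with many edges is obtained from a product gate whose two factors receive at most
half of the edges each. -/
theorem cover (Good : SimpleGraph (Fin n) → Prop)
    {l : List (SimpleGraph (Fin n) → NNReal)} {k : ℕ} (h : Prog n l k) :
    (∀ f ∈ l, ∃ w, Rep w f) ∧
    ∃ L : List ((SimpleGraph (Fin n) → NNReal) × (SimpleGraph (Fin n) → NNReal)),
      L.length = k ∧ ∀ f ∈ l, ∀ S C a π : SimpleGraph (Fin n), S ∈ Sup f →
        (∀ S' ∈ Sup f, Good (S' ⊔ C)) → S ⊔ C = π → a ≤ S →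
        (∀ u v, π.Adj u v → ¬ a.Adj u v → C.Adj u v) → n - 1 < dn a → dn π ≤ 2 * (n - 1) →
        ∃ p ∈ L, Covered Good p π := by
  classical
  induction h with
  | nil => exact ⟨by simp, [], rfl, by simp⟩
  | @free l k f hP hf ih =>
    obtain ⟨ih1, L, hL, ih2⟩ := ih
    refine ⟨?_, L, hL, ?_⟩
    · intro g hg
      rw [List.mem_cons] at hg
      rcases hg with rfl | hg
      · exact hf.rep.1
      · exact ih1 g hg
    · intro g hg S C a π hS hgood hπ ha hC hda hdπ
      rw [List.mem_cons] at hg
      rcases hg with rfl | hg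
      · exfalso
        have h1 := hf.rep.2 S hS
        have h2 := dn_mono ha
        omega
      · exact ih2 g hg S C a π hS hgood hπ ha hC hda hdπ
  | @add l k f₁ f₂ hP hf₁ hf₂ ih =>
    obtain ⟨ih1, L, hL, ih2⟩ := ih
    obtain ⟨w₁, hw₁⟩ := ih1 f₁ hf₁
    obtain ⟨w₂, hw₂⟩ := ih1 f₂ hf₂
    refine ⟨?_, L, hL, ?_⟩
    · intro g hg
      rw [List.mem_cons] at hg
      rcases hg with rfl | hg
      · exact ⟨_, hw₁.add hw₂⟩
      · exact ih1 g hg
    · intro g hg S C a π hS hgood hπ ha hC hda hdπ
      rw [List.mem_cons] at hg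
      rcases hg with rfl | hg
      · rcases (hw₁.mem_add hw₂).1 hS with h1 | h1
        · exact ih2 f₁ hf₁ S C a π h1
            (fun S' hS' => hgood S' ((hw₁.mem_add hw₂).2 (Or.inl hS'))) hπ ha hC hda hdπ
        · exact ih2 f₂ hf₂ S C a π h1
            (fun S' hS' => hgood S' ((hw₁.mem_add hw₂).2 (Or.inr hS'))) hπ ha hC hda hdπ
      · exact ih2 g hg S C a π hS hgood hπ ha hC hda hdπ
  | @mul l k f₁ f₂ hP hf₁ hf₂ ih =>
    obtain ⟨ih1, L, hL, ih2⟩ := ih
    obtain ⟨w₁, hw₁⟩ := ih1 f₁ hf₁
    obtain ⟨w₂, hw₂⟩ := ih1 f₂ hf₂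
    refine ⟨?_, (f₁, f₂) :: L, by rw [List.length_cons, hL], ?_⟩
    · intro g hg
      rw [List.mem_cons] at hg
      rcases hg with rfl | hg
      · exact ⟨_, hw₁.mul hw₂⟩
      · exact ih1 g hg
    · intro g hg S C a π hS hgood hπ ha hC hda hdπ
      rw [List.mem_cons] at hg
      rcases hg with rfl | hg
      · obtain ⟨S₁, hS₁, S₂, hS₂, hS⟩ := (hw₁.mem_mul hw₂).1 hS
        have hgood' : ∀ T₁ ∈ Sup f₁, ∀ T₂ ∈ Sup f₂, Good (T₁ ⊔ T₂ ⊔ C) := fun T₁ h1 T₂ h2 =>
          hgood _ ((hw₁.mem_mul hw₂).2 ⟨T₁, h1, T₂, h2, rfl⟩)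
        by_cases hb1 : n - 1 < dn (a ⊓ S₁)
        · obtain ⟨p, hp, hcov⟩ := ih2 f₁ hf₁ S₁ (C ⊔ S₂) (a ⊓ S₁) π hS₁ (by
              intro S' hS'
              have := hgood' S' hS' S₂ hS₂
              rwa [sup_comm C S₂, ← sup_assoc]) (by
              rw [← hπ, ← hS, sup_comm C S₂, ← sup_assoc]) inf_le_right (by
              intro u v huv hn
              rw [SimpleGraph.sup_adj]
              by_cases h3 : a.Adj u v
              · right
                have h4 := ha h3
                rw [← hS, SimpleGraph.sup_adj] at h4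
                rcases h4 with h4 | h4
                · exact absurd ((SimpleGraph.inf_adj _ _ _ _).2 ⟨h3, h4⟩) hn
                · exact h4
              · exact Or.inl (hC u v huv h3)) hb1 hdπ
          exact ⟨p, List.mem_cons_of_mem _ hp, hcov⟩
        · by_cases hb2 : n - 1 < dn (a \ S₁)
          · obtain ⟨p, hp, hcov⟩ := ih2 f₂ hf₂ S₂ (C ⊔ S₁) (a \ S₁) π hS₂ (by
                intro S' hS'
                have := hgood' S₁ hS₁ S' hS'
                rwa [sup_comm C S₁, ← sup_assoc, sup_comm S' S₁]) (by
                rw [← hπ, ← hS, sup_comm C S₁, ← sup_assoc, sup_comm S₂ S₁]) (by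
                intro u v huv
                rw [SimpleGraph.sdiff_adj] at huv
                have h4 := ha huv.1
                rw [← hS, SimpleGraph.sup_adj] at h4
                exact h4.resolve_left huv.2) (by
                intro u v huv hn
                rw [SimpleGraph.sup_adj]
                by_cases h3 : a.Adj u v
                · right
                  by_contra h4
                  exact hn ((SimpleGraph.sdiff_adj _ _ _ _).2 ⟨h3, h4⟩)
                · exact Or.inl (hC u v huv h3)) hb2 hdπ
            exact ⟨p, List.mem_cons_of_mem _ hp, hcov⟩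
          · refine ⟨(f₁, f₂), List.mem_cons_self, ![S₁, S₂, C], hS₁, hS₂, hgood', ?_, ?_⟩
            · rw [iSup3, ← hπ, ← hS]; rfl
            · push Not at hb1 hb2
              have haπ : a ≤ π := ha.trans (hπ ▸ le_sup_left)
              refine ⟨fun u v => if (a ⊓ S₁).Adj u v then 0 else if (a \ S₁).Adj u v then 1 else 2,
                ?_, ?_⟩
              · intro u v huv
                simp only
                by_cases h3 : (a ⊓ S₁).Adj u v
                · rw [if_pos h3]
                  exact ((SimpleGraph.inf_adj _ _ _ _).1 h3).2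
                · rw [if_neg h3]
                  by_cases h4 : (a \ S₁).Adj u v
                  · rw [if_pos h4]
                    rw [SimpleGraph.sdiff_adj] at h4
                    have h5 := ha h4.1
                    rw [← hS, SimpleGraph.sup_adj] at h5
                    exact h5.resolve_left h4.2
                  · rw [if_neg h4]
                    apply hC u v huv
                    intro h5
                    rw [SimpleGraph.inf_adj] at h3
                    rw [SimpleGraph.sdiff_adj] at h4
                    exact h4 ⟨h5, fun h6 => h3 ⟨h5, h6⟩⟩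
              · have hc0 : ((univ : Finset (Fin n × Fin n)).filter fun q => q.2 ∈ nb π q.1 ∧
                    (if (a ⊓ S₁).Adj q.1 q.2 then (0 : Fin 3) else
                      if (a \ S₁).Adj q.1 q.2 then 1 else 2) = 0).card ≤ n - 1 := by
                  refine (card_le_card ?_).trans hb1
                  intro q hq
                  rw [mem_filter] at hq ⊢
                  refine ⟨hq.1, mem_nb.2 ?_⟩
                  by_contra h3
                  have h4 := hq.2.2
                  rw [if_neg h3] at h4
                  split_ifs at h4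
                  · exact absurd h4 (by decide)
                  · exact absurd h4 (by decide)
                have hc1 : ((univ : Finset (Fin n × Fin n)).filter fun q => q.2 ∈ nb π q.1 ∧
                    (if (a ⊓ S₁).Adj q.1 q.2 then (0 : Fin 3) else
                      if (a \ S₁).Adj q.1 q.2 then 1 else 2) = 1).card ≤ n - 1 := by
                  refine (card_le_card ?_).trans hb2
                  intro q hq
                  rw [mem_filter] at hq ⊢
                  refine ⟨hq.1, mem_nb.2 ?_⟩
                  by_contra h3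
                  have h4 := hq.2.2
                  rw [if_neg h3] at h4
                  split_ifs at h4
                  · exact absurd h4 (by decide)
                  · exact absurd h4 (by decide)
                have hc2 : ((univ : Finset (Fin n × Fin n)).filter fun q => q.2 ∈ nb π q.1 ∧
                    (if (a ⊓ S₁).Adj q.1 q.2 then (0 : Fin 3) else
                      if (a \ S₁).Adj q.1 q.2 then 1 else 2) = 2).card ≤ n - 1 := by
                  have h5 : ((univ : Finset (Fin n × Fin n)).filter fun q => q.2 ∈ nb π q.1 ∧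
                      (if (a ⊓ S₁).Adj q.1 q.2 then (0 : Fin 3) else
                      if (a \ S₁).Adj q.1 q.2 then 1 else 2) = 2) ⊆
                      ((univ : Finset (Fin n × Fin n)).filter fun q => q.2 ∈ nb π q.1) \
                      ((univ : Finset (Fin n × Fin n)).filter fun q => q.2 ∈ nb a q.1) := by
                    intro q hq
                    rw [mem_filter] at hq
                    rw [mem_sdiff, mem_filter, mem_filter]
                    refine ⟨⟨hq.1, hq.2.1⟩, ?_⟩
                    rintro ⟨_, h6⟩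
                    rw [mem_nb] at h6
                    have h4 := hq.2.2
                    split_ifs at h4 with h7 h8
                    · exact absurd h4 (by decide)
                    · exact absurd h4 (by decide)
                    · rw [SimpleGraph.inf_adj] at h7
                      rw [SimpleGraph.sdiff_adj] at h8
                      exact h8 ⟨h6, fun h9 => h7 ⟨h6, h9⟩⟩
                  have h6 := card_le_card h5
                  rw [card_sdiff_of_subset] at h6
                  · have h7 : dn π - dn a ≤ n - 1 := by omega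
                    exact h6.trans h7
                  · intro q hq
                    rw [mem_filter, mem_nb] at hq ⊢
                    exact ⟨hq.1, haπ hq.2⟩
                intro i
                fin_cases i
                · exact hc0
                · exact hc1
                · exact hc2
      · obtain ⟨p, hp, hcov⟩ := ih2 g hg S C a π hS hgood hπ ha hC hda hdπ
        exact ⟨p, List.mem_cons_of_mem _ hp, hcov⟩

/-- The bound in natural numbers. -/
theorem bound {N : ℕ} (hN : N = 8192) (hn : 2 ≤ n) {s t : Fin n} (hst : s ≠ t)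
    {l : List (SimpleGraph (Fin n) → NNReal)} {k : ℕ} (h : Prog n l k)
    (hF : (fun G : SimpleGraph (Fin n) => (Nat.card (G.Path s t) : NNReal)) ∈ l) :
    2 ^ (n - 1) ≤ k * (2048 * N ^ N * (n - 1)) := by
  classical
  obtain ⟨-, L, hL, hcov⟩ := cover (IsPth univ s t) h
  obtain ⟨H, hHcard, hH⟩ := exists_ham (n - 2) (univ : Finset (Fin n)) s t (mem_univ _)
    (mem_univ _) hst (by rw [card_univ, Fintype.card_fin]; omega)
  have hrep := rep_path s t
  have hgood : ∀ S ∈ Sup (fun G : SimpleGraph (Fin n) => (Nat.card (G.Path s t) : NNReal)),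
      IsPth univ s t S := by
    intro S hS
    rw [hrep.mem, Nat.cast_ne_zero] at hS
    have h1 : Nonempty {p : (⊤ : SimpleGraph (Fin n)).Path s t // eg p.1 = S} := by
      by_contra h2
      rw [not_nonempty_iff] at h2
      exact hS Nat.card_of_isEmpty
    obtain ⟨⟨p, hp⟩⟩ := h1
    rw [← hp]
    exact isPth_eg p.1 p.2 hst
  have hmem : ∀ π ∈ H, π ∈ Sup (fun G : SimpleGraph (Fin n) =>
      (Nat.card (G.Path s t) : NNReal)) := by
    intro π hπ
    obtain ⟨_, p, hp, hpe, _⟩ := hH π hπ
    rw [hrep.mem, Nat.cast_ne_zero]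
    have h1 : Nonempty {p : (⊤ : SimpleGraph (Fin n)).Path s t // eg p.1 = π} :=
      ⟨⟨⟨p, hp⟩, hpe⟩⟩
    exact (Nat.card_pos).ne'
  have hcov' : ∀ π ∈ H, ∃ p ∈ L, Covered (IsPth univ s t) p π := by
    intro π hπ
    have hd := dn_ham (hH π hπ).1 hst
    rw [Fintype.card_fin] at hd
    refine hcov _ hF π ⊥ π π (hmem π hπ) ?_ (sup_bot_eq π) le_rfl (fun u v h1 h2 => absurd h1 h2)
      (by omega) (by omega)
    intro S' hS'
    rw [sup_bot_eq]
    exact hgood S' hS'
  have hfac := Nat.factorial_pos (n - 1)
  have hfac' : (n - 1).factorial = (n - 1) * (n - 2).factorial := by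
    obtain ⟨j, rfl⟩ : ∃ j, n = j + 2 := ⟨n - 2, by omega⟩
    simp only [Nat.add_sub_cancel]
    have : j + 2 - 1 = j + 1 := by omega
    rw [this, Nat.factorial_succ]
  have hB : ∀ p ∈ L, (H.filter (Covered (IsPth univ s t) p)).card ≤
      2048 * N ^ N * (n - 1).factorial / 2 ^ (n - 1) := by
    intro p _
    rw [Nat.le_div_iff_mul_le (by positivity)]
    have hfam : Fam univ s t (![Sup p.1, Sup p.2,
        {C | ∀ S₁ ∈ Sup p.1, ∀ S₂ ∈ Sup p.2, IsPth univ s t (S₁ ⊔ S₂ ⊔ C)}])
        (H.filter (Covered (IsPth univ s t) p)) (n - 1) := by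
      refine ⟨mem_univ _, mem_univ _, hst, ?_, ?_, ?_⟩
      · intro c hc
        rw [iSup3]
        exact (hc 2) (c 0) (hc 0) (c 1) (hc 1)
      · intro π hπ
        exact (hH π (mem_filter.1 hπ).1).1
      · intro π hπ
        obtain ⟨c, h0, h1, h2, h3, h4⟩ := (mem_filter.1 hπ).2
        refine ⟨c, ?_, h3, h4⟩
        intro i
        fin_cases i
        · exact h0
        · exact h1
        · exact h2
    have h1 := fam_bound hN (n - 1) univ _ _ (n - 1) 0 hfam
      (by rw [card_univ, Fintype.card_fin]; omega) (by omega)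
    refine h1.trans ?_
    rw [pow_zero, mul_one]
    apply Nat.mul_le_mul_right
    apply Nat.mul_le_mul_left
    exact Nat.pow_le_pow_right (by omega) (min_le_right _ _)
  have hsub : H ⊆ L.toFinset.biUnion fun p => H.filter (Covered (IsPth univ s t) p) := by
    intro π hπ
    obtain ⟨p, hp, hc⟩ := hcov' π hπ
    rw [mem_biUnion]
    exact ⟨p, List.mem_toFinset.2 hp, mem_filter.2 ⟨hπ, hc⟩⟩
  have h2 : H.card ≤ k * (2048 * N ^ N * (n - 1).factorial / 2 ^ (n - 1)) := by
    refine (card_le_card hsub).trans ((card_biUnion_le_card_mul _ _ _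
      (fun p hp => hB p (List.mem_toFinset.1 hp))).trans ?_)
    apply Nat.mul_le_mul_right
    rw [← hL]
    exact List.toFinset_card_le L
  rw [hHcard] at h2
  have h3 : (n - 2).factorial * 2 ^ (n - 1) ≤
      (n - 2).factorial * (k * (2048 * N ^ N * (n - 1))) := by
    calc (n - 2).factorial * 2 ^ (n - 1) ≤
          k * (2048 * N ^ N * (n - 1).factorial / 2 ^ (n - 1)) * 2 ^ (n - 1) :=
          Nat.mul_le_mul_right _ h2
      _ = k * (2048 * N ^ N * (n - 1).factorial / 2 ^ (n - 1) * 2 ^ (n - 1)) := by ring
      _ ≤ k * (2048 * N ^ N * (n - 1).factorial) :=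
          Nat.mul_le_mul_left _ (Nat.div_mul_le_self _ _)
      _ = _ := by rw [hfac']; ring
  exact Nat.le_of_mul_le_mul_left h3 (Nat.factorial_pos _)

/-- There is `c > 0` such that for all `n ≥ 2` and all distinct `s`, `t`, each subtraction-free
straight-line programme that computes the number `P(G; s, t)` of simple `s`-`t` paths for all graphs
`G` on `n` labelled vertices has at least `c * 2 ^ n / n` multiplications. -/
theorem result : ∃ c : ℝ, 0 < c ∧ ∀ n : ℕ, 2 ≤ n → ∀ s t : Fin n, s ≠ t →
    ∀ (l : List (SimpleGraph (Fin n) → NNReal)) (k : ℕ), Prog n l k →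
      (fun G : SimpleGraph (Fin n) => (Nat.card (G.Path s t) : NNReal)) ∈ l →
      c * 2 ^ n / n ≤ k := by
  obtain ⟨N, hN⟩ : ∃ N : ℕ, N = 8192 := ⟨_, rfl⟩
  obtain ⟨C, hC⟩ : ∃ C : ℕ, C = 2048 * N ^ N := ⟨_, rfl⟩
  have hCpos : 0 < C := by rw [hC]; have : 0 < N := by omega
                           positivity
  refine ⟨1 / (2 * C), by positivity, ?_⟩
  intro n hn s t hst l k hP hF
  have h1 := bound hN hn hst hP hF
  rw [← hC] at h1
  have hn0 : (0 : ℝ) < n := by exact_mod_cast (by omega : 0 < n)
  have hC0 : (0 : ℝ) < C := by exact_mod_cast hCpos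
  have h2 : 2 ^ n ≤ 2 * C * n * k := by
    calc 2 ^ n = 2 * 2 ^ (n - 1) := by
          rw [← pow_succ']; congr 1; omega
      _ ≤ 2 * (k * (C * (n - 1))) := Nat.mul_le_mul_left _ h1
      _ ≤ 2 * (k * (C * n)) :=
          Nat.mul_le_mul_left _ (Nat.mul_le_mul_left _ (Nat.mul_le_mul_left _ (by omega)))
      _ = _ := by ring
  have h3 : (2 : ℝ) ^ n ≤ 2 * C * n * k := by exact_mod_cast h2
  rw [div_le_iff₀ hn0, div_mul_eq_mul_div, one_mul, div_le_iff₀ (by positivity)]
  linarith

end Pool.Agent.Results.MP_e05f17_lc.SubtractionFree
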