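import Pool.Agent.Run7.h850.WalkSum

/-!
# Formulas for the number of `s`-`t` paths by weighted walk counts have `2 ^ n / n ^ 2` terms

`P(G; s, t)` is the number of simple `s`-`t` paths of the undirected simple graph `G` on `n`
labelled vertices. The inclusion-exclusion method (Karp, Bax) writes it as a sum over subsets of
the vertices of counts of walks in induced subgraphs, that is, of entries of powers of the adjacency
matrix of `G` with some entries deleted. We show that no formula of this kind has essentially fewer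
terms, even if the entries of the adjacency matrix may get arbitrary weights, the summands arbitrary
coefficients, and an arbitrary function of `G` of lower degree may be added.
-/

set_option autoImplicit false

namespace Pool.Agent.Results.MP_e05f17_lc.WalkSums

open Finset Run7.h850

variable {K : Type} [Field K]

open Classical in
/-- The adjacency matrix of `G` with the entries of `W` as weights: the entry at `u`, `v` is `W u v`
if `u` and `v` are adjacent and `0` otherwise. -/
noncomputable def wAdj {n : ℕ} (W : Matrix (Fin n) (Fin n) K) (G : SimpleGraph (Fin n)) :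
    Matrix (Fin n) (Fin n) K :=
  fun u v => if G.Adj u v then W u v else 0

open Classical in
/-- The function `h` of the graph has degree at most `d`: it is a combination with coefficients
`w S` of the indicators of `S` being a subgraph of `G`, for graphs `S` with at most `d` edges. -/
def DegreeLE (n d : ℕ) (h : SimpleGraph (Fin n) → K) : Prop :=
  ∃ w : SimpleGraph (Fin n) → K, (∀ S, w S ≠ 0 → S.edgeSet.ncard ≤ d) ∧
    ∀ G, h G = ∑ S, if S ≤ G then w S else 0

/-- Let `K` be a field of characteristic zero, `n ≥ 4` and `s ≠ t`. If there are symmetric weight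
matrices `W r` and arbitrary coefficient matrices `c r` for `r < R` and a function `h` of degree at
most `n - 2` such that for all simple graphs `G` on `n` labelled vertices the number `P(G; s, t)` of
simple `s`-`t` paths is `h G` plus the sum over `r`, `u`, `v` of `c r u v` times the weighted number
of walks of length `n - 1` from `u` to `v` in `G` with the edge weights `W r`, then
`R ≥ 2 ^ n / (32 * n ^ 2)`. -/
theorem result [CharZero K] {n : ℕ} (hn : 4 ≤ n) {s t : Fin n} (hst : s ≠ t) {R : ℕ}
    (W : Fin R → Matrix (Fin n) (Fin n) K) (hW : ∀ r, (W r).IsSymm)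
    (c : Fin R → Matrix (Fin n) (Fin n) K) (h : SimpleGraph (Fin n) → K)
    (hh : DegreeLE n (n - 2) h)
    (heq : ∀ G : SimpleGraph (Fin n), (Nat.card (G.Path s t) : K) =
      h G + ∑ r, ∑ u, ∑ v, c r u v * (wAdj (W r) G ^ (n - 1)) u v) :
    2 ^ n ≤ 32 * n ^ 2 * R := by
  classical
  obtain ⟨q, hq⟩ : ∃ q, q = (n - 4) / 4 := ⟨_, rfl⟩
  have hcardU : (univ : Finset (Fin n)).card = n := by simp
  -- the layout
  obtain ⟨m, hm⟩ : ((univ : Finset (Fin n)) \ {s, t}).Nonempty := by
    rw [← card_pos, card_sdiff_of_subset (subset_univ _), hcardU, card_pair hst]; omega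
  rw [mem_sdiff, mem_insert, mem_singleton, not_or] at hm
  obtain ⟨d, hd⟩ : ((univ : Finset (Fin n)) \ {s, t, m}).Nonempty := by
    rw [← card_pos, card_sdiff_of_subset (subset_univ _), hcardU]
    have := card_le_three (a := s) (b := t) (c := m)
    omega
  rw [mem_sdiff, mem_insert, mem_insert, mem_singleton, not_or, not_or] at hd
  set U : Finset (Fin n) := univ \ {s, t, m, d} with hU
  have hUc : U.card + 4 = n := by
    rw [hU, card_sdiff_of_subset (subset_univ _), hcardU]
    have h4 : ({s, t, m, d} : Finset (Fin n)).card = 4 := by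
      rw [card_insert_of_notMem, card_insert_of_notMem, card_insert_of_notMem, card_singleton]
      · rw [mem_singleton]; exact fun e => hd.2.2.2 e.symm
      · rw [mem_insert, mem_singleton, not_or]
        exact ⟨fun e => hm.2.2 e.symm, fun e => hd.2.2.1 e.symm⟩
      · rw [mem_insert, mem_insert, mem_singleton, not_or, not_or]
        exact ⟨hst, fun e => hm.2.1 e.symm, fun e => hd.2.1 e.symm⟩
    rw [h4]
    omega
  have hUm : ∀ x, x ∈ U ↔ x ≠ s ∧ x ≠ t ∧ x ≠ m ∧ x ≠ d := by
    intro x
    rw [hU, mem_sdiff, mem_insert, mem_insert, mem_insert, mem_singleton]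
    simp only [mem_univ, true_and, not_or]
  obtain ⟨P, hPU, hPc⟩ := exists_subset_card_eq (s := U) (n := 2 * q) (by omega)
  have hUP : (U \ P).card = U.card - 2 * q := by rw [card_sdiff_of_subset hPU, hPc]
  obtain ⟨Q, hQU, hQc⟩ := exists_subset_card_eq (s := U \ P) (n := 2 * q) (by omega)
  have hQU' : Q ⊆ U := hQU.trans sdiff_subset
  have lay : Lay s t m d ((U \ P) \ Q) P Q := by
    have nU : ∀ {A : Finset (Fin n)}, A ⊆ U → s ∉ A ∧ t ∉ A ∧ m ∉ A ∧ d ∉ A := by
      intro A hA
      refine ⟨fun h1 => ?_, fun h1 => ?_, fun h1 => ?_, fun h1 => ?_⟩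
      · exact ((hUm _).1 (hA h1)).1 rfl
      · exact ((hUm _).1 (hA h1)).2.1 rfl
      · exact ((hUm _).1 (hA h1)).2.2.1 rfl
      · exact ((hUm _).1 (hA h1)).2.2.2 rfl
    have nL := nU (A := (U \ P) \ Q) (sdiff_subset.trans sdiff_subset)
    have nP := nU hPU
    have nQ := nU hQU'
    exact
      { st := hst
        sm := fun e => hm.2.1 e.symm
        sc := fun e => hd.2.1 e.symm
        tm := fun e => hm.2.2 e.symm
        tc := fun e => hd.2.2.1 e.symm
        mc := fun e => hd.2.2.2 e.symm
        sL := nL.1
        tL := nL.2.1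
        mL := nL.2.2.1
        cL := nL.2.2.2
        sP := nP.1
        tP := nP.2.1
        mP := nP.2.2.1
        cP := nP.2.2.2
        sQ := nQ.1
        tQ := nQ.2.1
        mQ := nQ.2.2.1
        cQ := nQ.2.2.2
        LP := by
          rw [disjoint_left]
          intro x hx hx'
          exact (mem_sdiff.1 (mem_sdiff.1 hx).1).2 hx'
        LQ := sdiff_disjoint
        PQ := by
          rw [disjoint_left]
          intro x hx hx'
          exact (mem_sdiff.1 (hQU hx')).2 hx }
  have hcov : ∀ x : Fin n, x = s ∨ x = t ∨ x = m ∨ x = d ∨ x ∈ (U \ P) \ Q ∨ x ∈ P ∨ x ∈ Q := by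
    intro x
    have h1 := hUm x
    rw [mem_sdiff, mem_sdiff]
    tauto
  -- translation
  have hsym : ∀ r u v, W r u v = W r v u := fun r u v => ((hW r).apply u v).symm
  set ω : Fin R → Sym2 (Fin n) → K := fun r => Sym2.lift ⟨fun u v => W r u v, fun u v => hsym r u v⟩
    with hω
  have hadj : ∀ r G, adjW (ω r) G = wAdj (W r) G := by
    intro r G
    ext u v
    simp only [adjW, wAdj, hω, Sym2.lift_mk]
  obtain ⟨wg, hwg1, hwg2⟩ := hh
  have hb := walk_bound lay hcov hPc hQc ω (fun r u v => c r u v) h wg hwg2 (by
    intro S hS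
    rw [Fintype.card_fin] at hS
    by_contra h1
    have h2 := hwg1 S h1
    rw [← es_card] at h2
    omega) (by
    intro G
    rw [heq G, Fintype.card_fin]
    simp only [hadj])
  -- arithmetic
  have hcb : 4 ^ q ≤ (2 * q + 1) * q.centralBinom := by
    rcases Nat.eq_zero_or_pos q with h0 | h0
    · rw [h0]; simp
    · refine (Nat.four_pow_le_two_mul_self_mul_centralBinom q h0).trans ?_
      exact Nat.mul_le_mul_right _ (by omega)
  have h16 : 16 ^ q ≤ (2 * q + 1) ^ 2 * R := by
    calc 16 ^ q = (4 ^ q) ^ 2 := by rw [← pow_mul, mul_comm, pow_mul]; norm_num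
      _ ≤ ((2 * q + 1) * q.centralBinom) ^ 2 := Nat.pow_le_pow_left hcb 2
      _ = (2 * q + 1) ^ 2 * q.centralBinom ^ 2 := by ring
      _ ≤ _ := Nat.mul_le_mul_left _ hb
  have hq2 : 2 * (2 * q + 1) ≤ n := by omega
  calc 2 ^ n ≤ 2 ^ (4 * q + 7) := Nat.pow_le_pow_right (by omega) (by omega)
    _ = 128 * 16 ^ q := by rw [pow_add, pow_mul]; norm_num; ring
    _ ≤ 128 * ((2 * q + 1) ^ 2 * R) := Nat.mul_le_mul_left _ h16
    _ = 32 * (2 * (2 * q + 1)) ^ 2 * R := by ring
    _ ≤ 32 * n ^ 2 * R :=
        Nat.mul_le_mul_right _ (Nat.mul_le_mul_left _ (Nat.pow_le_pow_left hq2 2))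

end Pool.Agent.Results.MP_e05f17_lc.WalkSums
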